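import Pool.Agent.Helper79.NC.Spec

/-!
# Isometries map geodesics to geodesics (module G1 of `MP_4787eb_gt`)
-/

namespace Pool.Agent.Helper79.NC

open scoped ContDiff

theorem isoGeodesic : IsoGeodesic := by
  intro g φ ψ hg hφ hψ hψφ hφψ hiso c hc
  have hφ2 : ContDiff ℝ 2 φ := by exact_mod_cast contDiff_infty.mp hφ 2
  have hφd : Differentiable ℝ φ := hφ2.differentiable (by norm_num)
  have hψd : Differentiable ℝ ψ := hψ.differentiable (by simp)
  have hcd : Differentiable ℝ c := hc.smooth.differentiable (by simp)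
  have hgd : Differentiable ℝ g := hg.smooth.differentiable (by simp)
  have hDφ : Differentiable ℝ (fderiv ℝ φ) :=
    (hφ.fderiv_right (m := ∞) (by simp)).differentiable (by simp)
  have hDψ : Differentiable ℝ (fderiv ℝ ψ) :=
    (hψ.fderiv_right (m := ∞) (by simp)).differentiable (by simp)
  have hc' : Differentiable ℝ (deriv c) :=
    ((contDiff_infty_iff_deriv.mp hc.smooth).2).differentiable (by simp)
  refine ⟨hφ.comp hc.smooth, ?_⟩
  intro t e
  have hcomp : ∀ τ, HasDerivAt (fun τ => φ (c τ)) (fderiv ℝ φ (c τ) (deriv c τ)) τ := fun τ =>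
    (hφd (c τ)).hasFDerivAt.comp_hasDerivAt τ (hcd τ).hasDerivAt
  have hcder : ∀ τ, deriv (fun τ => φ (c τ)) τ = fderiv ℝ φ (c τ) (deriv c τ) := fun τ =>
    (hcomp τ).deriv
  -- the pulled back vector
  have hinv : ∀ τ (v : E3), fderiv ℝ φ (c τ) (fderiv ℝ ψ (φ (c τ)) v) = v := by
    intro τ v
    have h1 : HasFDerivAt (fun x => φ (ψ x))
        ((fderiv ℝ φ (ψ (φ (c τ)))).comp (fderiv ℝ ψ (φ (c τ)))) (φ (c τ)) :=
      (hφd _).hasFDerivAt.comp (φ (c τ)) (hψd _).hasFDerivAt
    have h2 : HasFDerivAt (fun x => φ (ψ x)) (ContinuousLinearMap.id ℝ E3) (φ (c τ)) := by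
      have : (fun x => φ (ψ x)) = fun x => x := funext hφψ
      rw [this]
      exact hasFDerivAt_id _
    have h3 := h1.unique h2
    rw [hψφ] at h3
    have := congrArg (fun L : E3 →L[ℝ] E3 => L v) h3
    simpa using this
  set eh : ℝ → E3 := fun τ => fderiv ℝ ψ (φ (c τ)) e with heh
  have heh1 : ∀ τ, fderiv ℝ φ (c τ) (eh τ) = e := fun τ => hinv τ e
  have hehd : Differentiable ℝ eh := by
    intro τ
    have h1 : HasDerivAt (fun τ => fderiv ℝ ψ (φ (c τ)))
        (fderiv ℝ (fderiv ℝ ψ) (φ (c τ)) (fderiv ℝ φ (c τ) (deriv c τ))) τ :=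
      (hDψ _).hasFDerivAt.comp_hasDerivAt τ (hcomp τ)
    exact (h1.clm_apply (hasDerivAt_const τ e)).differentiableAt
  have hfun : (fun τ => g (φ (c τ)) (deriv (fun τ => φ (c τ)) τ) e)
      = fun τ => g (c τ) (deriv c τ) (eh τ) := by
    funext τ
    rw [hcder]
    conv_lhs => rw [← heh1 τ]
    rw [hiso]
  -- derivative of the left hand side
  have hB : DifferentiableAt ℝ (fun τ => g (c τ) (deriv c τ)) t := by
    have h1 : HasDerivAt (fun τ => g (c τ)) (fderiv ℝ g (c t) (deriv c t)) t :=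
      HasFDerivAt.comp_hasDerivAt (l := g) t (hgd (c t)).hasFDerivAt (hcd t).hasDerivAt
    exact (h1.clm_apply (hc' t).hasDerivAt).differentiableAt
  have hgeo : ∀ e0 : E3, deriv (fun τ => g (c τ) (deriv c τ)) t e0
      = (1 / 2) * fderiv ℝ (fun x => g x (deriv c t) (deriv c t)) (c t) e0 := by
    intro e0
    rw [← hc.eq t e0]
    have h1 := hB.hasDerivAt.clm_apply (hasDerivAt_const t e0)
    have h2 := h1.deriv
    rw [h2]
    simp
  have hL : HasDerivAt (fun τ => g (c τ) (deriv c τ) (eh τ))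
      (deriv (fun τ => g (c τ) (deriv c τ)) t (eh t) + g (c t) (deriv c t) (deriv eh t)) t :=
    hB.hasDerivAt.clm_apply (hehd t).hasDerivAt
  rw [hfun, hL.deriv, hgeo, hcder]
  -- derivative of `D φ (c τ) (eh τ) = e`
  have h5 : fderiv ℝ (fderiv ℝ φ) (c t) (deriv c t) (eh t)
      + fderiv ℝ φ (c t) (deriv eh t) = 0 := by
    have h1 : HasDerivAt (fun τ => fderiv ℝ φ (c τ))
        (fderiv ℝ (fderiv ℝ φ) (c t) (deriv c t)) t :=
      (hDφ _).hasFDerivAt.comp_hasDerivAt t (hcd t).hasDerivAt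
    have h2 := h1.clm_apply (hehd t).hasDerivAt
    have h3 : (fun τ => fderiv ℝ φ (c τ) (eh τ)) = fun _ => e := funext heh1
    rw [h3] at h2
    exact h2.unique (hasDerivAt_const t e)
  -- derivative of the isometry identity
  have hgv : ∀ (v w : E3) (x : E3), HasFDerivAt (fun x => g x v w)
      (((fderiv ℝ g x).flip v).flip w) x := by
    intro v w x
    have h1 := (hgd x).hasFDerivAt.clm_apply (hasFDerivAt_const v x)
    have h2 := h1.clm_apply (hasFDerivAt_const w x)
    refine h2.congr_fderiv ?_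
    ext u <;> simp
  have h6 : fderiv ℝ (fun x => g x (fderiv ℝ φ (c t) (deriv c t)) (fderiv ℝ φ (c t) (deriv c t)))
        (φ (c t)) e
      + 2 * g (φ (c t)) (fderiv ℝ (fderiv ℝ φ) (c t) (eh t) (deriv c t))
          (fderiv ℝ φ (c t) (deriv c t))
      = fderiv ℝ (fun x => g x (deriv c t) (deriv c t)) (c t) (eh t) := by
    set v := deriv c t with hv
    set x := c t with hx
    have h1 : HasFDerivAt (fun z => g (φ z)) ((fderiv ℝ g (φ x)).comp (fderiv ℝ φ x)) x :=
      HasFDerivAt.comp (g := g) x (hgd (φ x)).hasFDerivAt (hφd x).hasFDerivAt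
    have h2 : HasFDerivAt (fun z => fderiv ℝ φ z v) ((fderiv ℝ (fderiv ℝ φ) x).flip v) x := by
      have := (hDφ x).hasFDerivAt.clm_apply (hasFDerivAt_const v x)
      refine this.congr_fderiv ?_
      ext u <;> simp
    have h3 := (h1.clm_apply h2).clm_apply h2
    have h4 : (fun z => g (φ z) (fderiv ℝ φ z v) (fderiv ℝ φ z v)) = fun z => g z v v := by
      funext z
      exact hiso z v v
    rw [h4] at h3
    have h5' := congrArg (fun L : E3 →L[ℝ] ℝ => L (eh t)) (h3.unique (hgv v v x))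
    rw [(hgv v v x).fderiv, (hgv _ _ (φ x)).fderiv]
    rw [← h5']
    have heh2 : fderiv ℝ φ x (eh t) = e := heh1 t
    have hsy := hg.symm (φ x) (fderiv ℝ φ x v) (fderiv ℝ (fderiv ℝ φ) x (eh t) v)
    simp only [_root_.add_apply, ContinuousLinearMap.comp_apply,
      ContinuousLinearMap.flip_apply, heh2]
    linarith
  -- symmetry of the second derivative
  have h7 : fderiv ℝ (fderiv ℝ φ) (c t) (eh t) (deriv c t)
      = fderiv ℝ (fderiv ℝ φ) (c t) (deriv c t) (eh t) :=
    (hφ2.contDiffAt.isSymmSndFDerivAt (by simp)).eq _ _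
  have h8 : g (c t) (deriv c t) (deriv eh t)
      = - g (φ (c t)) (fderiv ℝ (fderiv ℝ φ) (c t) (eh t) (deriv c t))
          (fderiv ℝ φ (c t) (deriv c t)) := by
    rw [← hiso (c t) (deriv c t) (deriv eh t), h7]
    have : fderiv ℝ φ (c t) (deriv eh t)
        = - fderiv ℝ (fderiv ℝ φ) (c t) (deriv c t) (eh t) := by
      rw [eq_neg_iff_add_eq_zero, add_comm]
      exact h5
    rw [this, map_neg, hg.symm (φ (c t)) (fderiv ℝ φ (c t) (deriv c t))]
  rw [h8]
  linarith

end Pool.Agent.Helper79.NC
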