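import Pool.Agent.Helper79.NC.Spec

/-!
# Uniqueness of Jacobi fields (module G2 of `MP_4787eb_gt`)
-/

set_option maxSynthPendingDepth 3

namespace Pool.Agent.Helper79.NC

open scoped ContDiff
open Set

/-- Two-sided Gronwall: a function with `‖f'‖ ≤ K ‖f‖` on compact intervals which vanishes at one
point vanishes identically. -/
theorem eq_zero_of_norm_deriv_le {F : Type*} [NormedAddCommGroup F] [NormedSpace ℝ F]
    {f f' : ℝ → F} (hf : ∀ t, HasDerivAt f (f' t) t)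
    (hb : ∀ α β : ℝ, ∃ K : ℝ, ∀ t ∈ Icc α β, ‖f' t‖ ≤ K * ‖f t‖) {t₀ : ℝ} (h0 : f t₀ = 0)
    (t : ℝ) : f t = 0 := by
  have hcont : Continuous f := continuous_iff_continuousAt.mpr fun t => (hf t).continuousAt
  rcases le_total t₀ t with h | h
  · obtain ⟨K, hK⟩ := hb t₀ t
    have := norm_le_gronwallBound_of_norm_deriv_right_le (f := f) (f' := f') (δ := 0) (K := K)
      (ε := 0) (a := t₀) (b := t) hcont.continuousOn (fun x _ => (hf x).hasDerivWithinAt)
      (by simp [h0]) (fun x hx => by simpa using hK x ⟨hx.1, hx.2.le⟩) t ⟨h, le_rfl⟩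
    rw [gronwallBound_ε0] at this
    simpa using this
  · obtain ⟨K, hK⟩ := hb t t₀
    have hf2 : ∀ s, HasDerivAt (fun s => f (-s)) (-(f' (-s))) s := by
      intro s
      have h1 := (hf (-s)).scomp s (hasDerivAt_neg s)
      have h2 : HasDerivAt (fun s => f (-s)) ((-1 : ℝ) • f' (-s)) s := h1
      simpa using h2
    have := norm_le_gronwallBound_of_norm_deriv_right_le (f := fun s => f (-s))
      (f' := fun s => -(f' (-s))) (δ := 0) (K := K)
      (ε := 0) (a := -t₀) (b := -t) (hcont.comp continuous_neg).continuousOn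
      (fun x _ => (hf2 x).hasDerivWithinAt)
      (by simp [h0]) (fun x hx => by
        have := hK (-x) ⟨by linarith [hx.2.le], by linarith [hx.1]⟩
        simpa using this) (-t) ⟨by linarith, le_rfl⟩
    rw [gronwallBound_ε0] at this
    simpa using this

section General

variable {E : Type*} [NormedAddCommGroup E] [NormedSpace ℝ E] [FiniteDimensional ℝ E]

/-- Uniform positive definiteness on compact sets of parameters. -/
theorem exists_pos_lower {g : E → E →L[ℝ] E →L[ℝ] ℝ} (hg : IsRiemannianMetric g) {c : ℝ → E}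
    (hc : Continuous c) (α β : ℝ) :
    ∃ m : ℝ, 0 < m ∧ ∀ t ∈ Icc α β, ∀ v : E, m * ‖v‖ ^ 2 ≤ g (c t) v v := by
  rcases subsingleton_or_nontrivial E with hE | hE
  · refine ⟨1, one_pos, fun t _ v => ?_⟩
    rw [Subsingleton.elim v 0]
    simp
  have : ProperSpace E := FiniteDimensional.proper_real E
  by_cases hαβ : α ≤ β
  swap
  · refine ⟨1, one_pos, fun t ht => ?_⟩
    exact absurd (ht.1.trans ht.2) hαβ
  have hK : IsCompact (Icc α β ×ˢ Metric.sphere (0 : E) 1) :=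
    isCompact_Icc.prod (isCompact_sphere _ _)
  obtain ⟨v0, hv0⟩ : (Metric.sphere (0 : E) 1).Nonempty :=
    NormedSpace.sphere_nonempty.mpr zero_le_one
  have hne : (Icc α β ×ˢ Metric.sphere (0 : E) 1).Nonempty :=
    ⟨(α, v0), ⟨le_rfl, hαβ⟩, hv0⟩
  have hcont : Continuous (fun p : ℝ × E => g (c p.1) p.2 p.2) := by
    have h1 : Continuous (fun p : ℝ × E => g (c p.1)) :=
      hg.smooth.continuous.comp (hc.comp continuous_fst)
    exact (h1.clm_apply continuous_snd).clm_apply continuous_snd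
  obtain ⟨p, hp, hmin⟩ := hK.exists_isMinOn hne hcont.continuousOn
  have hp2 : p.2 ≠ 0 := by
    have := hp.2
    rw [mem_sphere_zero_iff_norm] at this
    intro h
    rw [h] at this
    simp at this
  refine ⟨g (c p.1) p.2 p.2, hg.pos _ _ hp2, fun t ht v => ?_⟩
  by_cases hv : v = 0
  · subst hv
    simp
  have hv' : 0 < ‖v‖ := norm_pos_iff.mpr hv
  have h1 := hmin (show ((t, ‖v‖⁻¹ • v) : ℝ × E) ∈ Icc α β ×ˢ Metric.sphere (0 : E) 1 from
    ⟨ht, by
      rw [mem_sphere_zero_iff_norm, norm_smul, norm_inv, norm_norm]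
      exact inv_mul_cancel₀ hv'.ne'⟩)
  simp only [mem_ofPred_eq, map_smul, smul_apply, smul_eq_mul] at h1
  calc g (c p.1) p.2 p.2 * ‖v‖ ^ 2
      ≤ ‖v‖⁻¹ * (‖v‖⁻¹ * g (c t) v v) * ‖v‖ ^ 2 := by gcongr
    _ = g (c t) v v := by field_simp

theorem jacobi_unique {g : E → E →L[ℝ] E →L[ℝ] ℝ} (hg : IsRiemannianMetric g) {c J : ℝ → E}
    (hc : IsGeodesic g c) (hJ : IsJacobiField g c J) {a b : ℝ} (hab : a < b)
    (hzero : ∀ t ∈ Ioo a b, J t = 0) : ∀ t, J t = 0 := by
  obtain ⟨ε, V, hε, hV, hgeoV, hV0, hJV⟩ := hJ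
  set U : Set (ℝ × ℝ) := Ioo (-ε) ε ×ˢ univ with hU
  have hUo : IsOpen U := isOpen_Ioo.prod isOpen_univ
  set W : ℝ × ℝ → E := fun p => V p.1 p.2 with hWdef
  have hWa : ∀ p ∈ U, ContDiffAt ℝ ∞ W p := fun p hp => hV.contDiffAt (hUo.mem_nhds hp)
  have hgs := hg.smooth
  have h2i : (2 : WithTop ℕ∞) ≤ ∞ := WithTop.coe_le_coe.mpr (le_top : (2 : ℕ∞) ≤ ⊤)
  have hgd : Differentiable ℝ g := hgs.differentiable (by simp)
  have hDg : ContDiff ℝ ∞ (fderiv ℝ g) := hgs.fderiv_right (m := ∞) (by simp)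
  have hWd : ∀ p ∈ U, DifferentiableAt ℝ W p := fun p hp => (hWa p hp).differentiableAt (by simp)
  have hDW : ∀ p ∈ U, ContDiffAt ℝ ∞ (fderiv ℝ W) p := fun p hp =>
    (hWa p hp).fderiv_right (m := ∞) (by simp)
  set At : ℝ × ℝ → E := fun p => fderiv ℝ W p (0, 1) with hAt
  have hAta : ∀ p ∈ U, ContDiffAt ℝ ∞ At p := fun p hp =>
    (hDW p hp).clm_apply contDiffAt_const
  have h0U : ∀ t : ℝ, ((0 : ℝ), t) ∈ U := fun t => ⟨⟨by simpa using hε, hε⟩, mem_univ _⟩
  -- derivative along the parameter `t`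
  have hline : ∀ p ∈ U, HasDerivAt (fun τ => (p.1, τ)) ((0, 1) : ℝ × ℝ) p.2 := fun p _ =>
    (hasDerivAt_const p.2 p.1).prodMk (hasDerivAt_id p.2)
  have hVt : ∀ p ∈ U, deriv (V p.1) p.2 = At p := by
    intro p hp
    have h1 := (hWd p hp).hasFDerivAt.comp_hasDerivAt p.2 (hline p hp)
    exact h1.deriv
  -- momentum
  set Mo : ℝ × ℝ → E →L[ℝ] ℝ := fun p => g (W p) (At p) with hMo
  have hMoa : ∀ p ∈ U, ContDiffAt ℝ ∞ Mo p := fun p hp =>
    (hgs.contDiffAt.comp p (hWa p hp)).clm_apply (hAta p hp)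
  -- the Euler-Lagrange right hand side
  set Φ : E × E → E →L[ℝ] ℝ := fun q => (1 / 2 : ℝ) • ((fderiv ℝ g q.1).flip q.2).flip q.2
    with hΦ
  have hΦs : ContDiff ℝ ∞ Φ := by
    have h1 : ContDiff ℝ ∞ (fun q : E × E => fderiv ℝ g q.1) := hDg.comp contDiff_fst
    have h2 : ContDiff ℝ ∞ (fun q : E × E => (fderiv ℝ g q.1).flip) :=
      (ContinuousLinearMap.flipₗᵢ ℝ E E (E →L[ℝ] ℝ)).contDiff.comp h1
    have h3 : ContDiff ℝ ∞ (fun q : E × E => (fderiv ℝ g q.1).flip q.2) :=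
      h2.clm_apply contDiff_snd
    have h4 : ContDiff ℝ ∞ (fun q : E × E => ((fderiv ℝ g q.1).flip q.2).flip) :=
      (ContinuousLinearMap.flipₗᵢ ℝ E E ℝ).contDiff.comp h3
    exact (h4.clm_apply contDiff_snd).const_smul (1 / 2 : ℝ)
  have hgv : ∀ (v w : E) (x : E), HasFDerivAt (fun x => g x v w)
      (((fderiv ℝ g x).flip v).flip w) x := by
    intro v w x
    have h1 := (hgd x).hasFDerivAt.clm_apply (hasFDerivAt_const v x)
    have h2 := h1.clm_apply (hasFDerivAt_const w x)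
    refine h2.congr_fderiv ?_
    ext u
    simp
  have hEL : ∀ p ∈ U, fderiv ℝ Mo p (0, 1) = Φ (W p, At p) := by
    intro p hp
    ext1 e
    have hgeo := (hgeoV p.1 hp.1).eq p.2 e
    have h1 : (fun τ => g (V p.1 τ) (deriv (V p.1) τ) e) = fun τ => Mo (p.1, τ) e := by
      funext τ
      have := hVt (p.1, τ) ⟨hp.1, mem_univ _⟩
      simp only at this
      rw [this]
    rw [h1, hVt p hp, (hgv _ _ _).fderiv] at hgeo
    have h2 : HasDerivAt (fun τ => Mo (p.1, τ)) (fderiv ℝ Mo p (0, 1)) p.2 :=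
      HasFDerivAt.comp_hasDerivAt (l := Mo) p.2
        ((hMoa p hp).differentiableAt (by simp)).hasFDerivAt (hline p hp)
    have h3 := (h2.clm_apply (hasDerivAt_const p.2 e)).deriv
    rw [h3] at hgeo
    simp only [map_zero, add_zero] at hgeo
    rw [hgeo]
    simp only [hΦ, smul_apply, smul_eq_mul]
    rfl
  -- the Jacobi field and its momentum
  set P : ℝ → E →L[ℝ] ℝ := fun t => fderiv ℝ Mo (0, t) (1, 0) with hP
  set J1 : ℝ → E := fun t => fderiv ℝ At (0, t) (1, 0) with hJ1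
  have hJeq : ∀ t, J t = fderiv ℝ W (0, t) (1, 0) := by
    intro t
    rw [hJV t]
    have h1 : HasDerivAt (fun s : ℝ => (s, t)) ((1, 0) : ℝ × ℝ) 0 :=
      (hasDerivAt_id 0).prodMk (hasDerivAt_const 0 t)
    have h2 := HasFDerivAt.comp_hasDerivAt (l := W) (f := fun s : ℝ => (s, t)) 0
      (hWd (0, t) (h0U t)).hasFDerivAt h1
    exact h2.deriv
  have hl0 : ∀ t : ℝ, HasDerivAt (fun τ : ℝ => ((0 : ℝ), τ)) ((0, 1) : ℝ × ℝ) t := fun t =>
    (hasDerivAt_const t 0).prodMk (hasDerivAt_id t)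
  have hJd : ∀ t, HasDerivAt J (J1 t) t := by
    intro t
    have hJfun : J = fun t => fderiv ℝ W (0, t) (1, 0) := funext hJeq
    rw [hJfun]
    have h1 := HasFDerivAt.comp_hasDerivAt (l := fderiv ℝ W) (f := fun τ : ℝ => ((0 : ℝ), τ)) t
      (((hDW (0, t) (h0U t)).differentiableAt (by simp)).hasFDerivAt) (hl0 t)
    have h2 := h1.clm_apply (hasDerivAt_const t ((1, 0) : ℝ × ℝ))
    refine h2.congr_deriv ?_
    have hsymm := ((hWa (0, t) (h0U t)).isSymmSndFDerivAt (by simp; exact h2i)).eq (0, 1) (1, 0)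
    simp only [Function.comp_apply, map_zero, add_zero]
    rw [hsymm]
    have h3 := ((hDW (0, t) (h0U t)).differentiableAt (by simp)).hasFDerivAt.clm_apply
      (hasFDerivAt_const ((0, 1) : ℝ × ℝ) ((0 : ℝ), t))
    rw [hJ1]
    simp only [hAt]
    rw [h3.fderiv]
    simp
  have hPd : ∀ t, HasDerivAt P (fderiv ℝ Φ (c t, deriv c t) (J t, J1 t)) t := by
    intro t
    have hDM : ContDiffAt ℝ ∞ (fderiv ℝ Mo) (0, t) :=
      (hMoa (0, t) (h0U t)).fderiv_right (m := ∞) (by simp)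
    have h1 := HasFDerivAt.comp_hasDerivAt (l := fderiv ℝ Mo) (f := fun τ : ℝ => ((0 : ℝ), τ)) t
      ((hDM.differentiableAt (by simp)).hasFDerivAt) (hl0 t)
    have h2 := h1.clm_apply (hasDerivAt_const t ((1, 0) : ℝ × ℝ))
    refine h2.congr_deriv ?_
    have hsymm := ((hMoa (0, t) (h0U t)).isSymmSndFDerivAt (by simp; exact h2i)).eq (0, 1) (1, 0)
    simp only [Function.comp_apply, map_zero, add_zero]
    rw [hsymm]
    have h3 := (hDM.differentiableAt (by simp)).hasFDerivAt.clm_apply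
      (hasFDerivAt_const ((0, 1) : ℝ × ℝ) ((0 : ℝ), t))
    have h4 : fderiv ℝ (fun p => fderiv ℝ Mo p (0, 1)) (0, t) (1, 0)
        = fderiv ℝ (fderiv ℝ Mo) (0, t) (1, 0) (0, 1) := by
      rw [h3.fderiv]
      simp
    rw [← h4]
    have h5 : (fun p => fderiv ℝ Mo p (0, 1)) =ᶠ[nhds (0, t)] fun p => Φ (W p, At p) := by
      filter_upwards [hUo.mem_nhds (h0U t)] with p hp using hEL p hp
    rw [h5.fderiv_eq]
    have h6 : HasFDerivAt (fun p => (W p, At p))
        ((fderiv ℝ W (0, t)).prod (fderiv ℝ At (0, t))) (0, t) :=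
      (hWd _ (h0U t)).hasFDerivAt.prodMk
        ((hAta _ (h0U t)).differentiableAt (by simp)).hasFDerivAt
    have h7 := HasFDerivAt.comp (g := Φ) (0, t)
      ((hΦs.differentiable (by simp)) (W (0, t), At (0, t))).hasFDerivAt h6
    have h8 : W (0, t) = c t := by
      simp only [hWdef]
      rw [hV0]
    have h9 : At (0, t) = deriv c t := by
      rw [← hVt (0, t) (h0U t)]
      simp only
      rw [hV0]
    have h10 := h7.fderiv
    simp only [Function.comp_def] at h10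
    rw [h10, h8, h9]
    simp only [ContinuousLinearMap.comp_apply, ContinuousLinearMap.prod_apply]
    rw [← hJeq t]
  have hPeq : ∀ t, P t = fderiv ℝ g (c t) (J t) (deriv c t) + g (c t) (J1 t) := by
    intro t
    have h8 : W (0, t) = c t := by
      simp only [hWdef]
      rw [hV0]
    have h9 : At (0, t) = deriv c t := by
      rw [← hVt (0, t) (h0U t)]
      simp only
      rw [hV0]
    have h1 := HasFDerivAt.comp (g := g) ((0 : ℝ), t) (hgd (W (0, t))).hasFDerivAt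
      (hWd _ (h0U t)).hasFDerivAt
    have h2 := h1.clm_apply ((hAta _ (h0U t)).differentiableAt (by simp)).hasFDerivAt
    have h3 : P t = _ := congrArg (fun L : ℝ × ℝ →L[ℝ] E →L[ℝ] ℝ => L (1, 0)) h2.fderiv
    rw [h3]
    simp only [Function.comp_apply, _root_.add_apply, ContinuousLinearMap.comp_apply,
      ContinuousLinearMap.flip_apply]
    rw [h8, h9, ← hJeq t, add_comm]
  -- Gronwall
  have hcc : Continuous c := hc.smooth.continuous
  have hcc' : Continuous (deriv c) := (contDiff_infty_iff_deriv.mp hc.smooth).2.continuous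
  have hf : ∀ t, HasDerivAt (fun t => (J t, P t))
      (J1 t, fderiv ℝ Φ (c t, deriv c t) (J t, J1 t)) t := fun t => (hJd t).prodMk (hPd t)
  have hb : ∀ α β : ℝ, ∃ K : ℝ, ∀ t ∈ Icc α β,
      ‖(J1 t, fderiv ℝ Φ (c t, deriv c t) (J t, J1 t))‖ ≤ K * ‖(J t, P t)‖ := by
    intro α β
    obtain ⟨m, hm, hlow⟩ := exists_pos_lower hg hcc α β
    have hcΦ : Continuous (fun t => fderiv ℝ Φ (c t, deriv c t)) :=
      (hΦs.continuous_fderiv (by simp)).comp (hcc.prodMk hcc')
    obtain ⟨C1, hC1⟩ := isCompact_Icc.exists_bound_of_continuousOn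
      (s := Icc α β) hcΦ.continuousOn
    have hcD : Continuous (fun t => (fderiv ℝ g (c t)).flip (deriv c t)) := by
      have h1 : Continuous (fun t => (fderiv ℝ g (c t)).flip) :=
        (ContinuousLinearMap.flipₗᵢ ℝ E E (E →L[ℝ] ℝ)).continuous.comp
          (hDg.continuous.comp hcc)
      exact h1.clm_apply hcc'
    obtain ⟨C2, hC2⟩ := isCompact_Icc.exists_bound_of_continuousOn
      (s := Icc α β) hcD.continuousOn
    set C1' := max C1 0 with hC1'
    set C2' := max C2 0 with hC2'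
    have hC1n : 0 ≤ C1' := le_max_right _ _
    have hC2n : 0 ≤ C2' := le_max_right _ _
    set K1 : ℝ := m⁻¹ * (1 + C2') with hK1
    have hK1n : 0 ≤ K1 := by positivity
    refine ⟨max K1 (C1' * max 1 K1), fun t ht => ?_⟩
    have hbJ1 : ‖J1 t‖ ≤ K1 * ‖(J t, P t)‖ := by
      by_cases hJ10 : J1 t = 0
      · rw [hJ10, norm_zero]
        positivity
      have hpos : 0 < ‖J1 t‖ := norm_pos_iff.mpr hJ10
      have h1 := hlow t ht (J1 t)
      have h2 : g (c t) (J1 t) (J1 t) = P t (J1 t) - fderiv ℝ g (c t) (J t) (deriv c t) (J1 t) := by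
        rw [hPeq t]
        simp
      have h3 : P t (J1 t) ≤ ‖P t‖ * ‖J1 t‖ :=
        (le_abs_self _).trans ((P t).le_opNorm _)
      have h4 : -(fderiv ℝ g (c t) (J t) (deriv c t) (J1 t)) ≤ C2' * ‖J t‖ * ‖J1 t‖ := by
        have h5 : ‖((fderiv ℝ g (c t)).flip (deriv c t)) (J t) (J1 t)‖
            ≤ ‖(fderiv ℝ g (c t)).flip (deriv c t)‖ * ‖J t‖ * ‖J1 t‖ :=
          ContinuousLinearMap.le_opNorm₂ _ _ _
        have h6 : ‖(fderiv ℝ g (c t)).flip (deriv c t)‖ ≤ C2' := (hC2 t ht).trans (le_max_left _ _)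
        calc -(fderiv ℝ g (c t) (J t) (deriv c t) (J1 t))
            ≤ ‖((fderiv ℝ g (c t)).flip (deriv c t)) (J t) (J1 t)‖ := by
              rw [Real.norm_eq_abs]
              exact neg_le_abs _
          _ ≤ ‖(fderiv ℝ g (c t)).flip (deriv c t)‖ * ‖J t‖ * ‖J1 t‖ := h5
          _ ≤ C2' * ‖J t‖ * ‖J1 t‖ := by gcongr
      have hJn : ‖J t‖ ≤ ‖(J t, P t)‖ := le_max_left _ _
      have hPn : ‖P t‖ ≤ ‖(J t, P t)‖ := le_max_right _ _
      have h7 : m * ‖J1 t‖ ≤ (1 + C2') * ‖(J t, P t)‖ := by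
        have h8 : m * ‖J1 t‖ * ‖J1 t‖ ≤ ((1 + C2') * ‖(J t, P t)‖) * ‖J1 t‖ := by
          calc m * ‖J1 t‖ * ‖J1 t‖ = m * ‖J1 t‖ ^ 2 := by ring
            _ ≤ ‖P t‖ * ‖J1 t‖ + C2' * ‖J t‖ * ‖J1 t‖ := by linarith
            _ ≤ ‖(J t, P t)‖ * ‖J1 t‖ + C2' * ‖(J t, P t)‖ * ‖J1 t‖ := by gcongr
            _ = ((1 + C2') * ‖(J t, P t)‖) * ‖J1 t‖ := by ring
        exact le_of_mul_le_mul_right h8 hpos
      calc ‖J1 t‖ = m⁻¹ * (m * ‖J1 t‖) := by field_simp
        _ ≤ m⁻¹ * ((1 + C2') * ‖(J t, P t)‖) := by gcongr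
        _ = K1 * ‖(J t, P t)‖ := by rw [hK1]; ring
    rw [Prod.norm_def]
    apply max_le
    · calc ‖J1 t‖ ≤ K1 * ‖(J t, P t)‖ := hbJ1
        _ ≤ max K1 (C1' * max 1 K1) * ‖(J t, P t)‖ := by
          gcongr
          exact le_max_left _ _
    · have h1 : ‖(J t, J1 t)‖ ≤ max 1 K1 * ‖(J t, P t)‖ := by
        rw [Prod.norm_def]
        apply max_le
        · calc ‖J t‖ ≤ ‖(J t, P t)‖ := le_max_left _ _
            _ = 1 * ‖(J t, P t)‖ := (one_mul _).symm
            _ ≤ max 1 K1 * ‖(J t, P t)‖ := by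
              gcongr
              exact le_max_left _ _
        · calc ‖J1 t‖ ≤ K1 * ‖(J t, P t)‖ := hbJ1
            _ ≤ max 1 K1 * ‖(J t, P t)‖ := by
              gcongr
              exact le_max_right _ _
      calc ‖fderiv ℝ Φ (c t, deriv c t) (J t, J1 t)‖
          ≤ ‖fderiv ℝ Φ (c t, deriv c t)‖ * ‖(J t, J1 t)‖ := ContinuousLinearMap.le_opNorm _ _
        _ ≤ C1' * (max 1 K1 * ‖(J t, P t)‖) := by
          have := (hC1 t ht).trans (le_max_left C1 0)
          gcongr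
        _ = C1' * max 1 K1 * ‖(J t, P t)‖ := by ring
        _ ≤ max K1 (C1' * max 1 K1) * ‖(J t, P t)‖ := by
          gcongr
          exact le_max_right _ _
  -- initial value
  set t₀ : ℝ := (a + b) / 2 with ht₀
  have hmem : t₀ ∈ Ioo a b := ⟨by rw [ht₀]; linarith, by rw [ht₀]; linarith⟩
  have hJ0 : J t₀ = 0 := hzero t₀ hmem
  have hJ10 : J1 t₀ = 0 := by
    have h1 : J =ᶠ[nhds t₀] fun _ => (0 : E) := by
      filter_upwards [isOpen_Ioo.mem_nhds hmem] with t ht using hzero t ht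
    have h2 := ((hJd t₀).congr_of_eventuallyEq h1.symm)
    exact h2.unique (hasDerivAt_const t₀ (0 : E))
  have hP0 : P t₀ = 0 := by
    rw [hPeq t₀, hJ0, hJ10]
    simp
  intro t
  have := eq_zero_of_norm_deriv_le hf hb (t₀ := t₀) (by rw [hJ0, hP0]; rfl) t
  exact congrArg Prod.fst this

end General

theorem jacobiUnique : JacobiUnique := fun _ hg _ _ hc hJ _ _ hab hzero =>
  jacobi_unique hg hc hJ hab hzero

end Pool.Agent.Helper79.NC
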